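import Mathlib

/-!
# Three dimensional queens: reduction to a function `c : ZMod n → ZMod n`

The queens are the cells `(x, y, (2x + c y) mod n)`.
-/

namespace Pool.Agent.Q3

/-- The cell over `(x,y)`. -/
def cell {n : ℕ} (c : ZMod n → ZMod n) (x y : ℕ) : Fin 3 → ℤ :=
  ![(x : ℤ), (y : ℤ), ((2 * (x : ZMod n) + c (y : ZMod n)).val : ℤ)]

/-- The arithmetic conditions on `c`. -/
structure Good (n : ℕ) (c : ZMod n → ZMod n) : Prop where
  inj0 : Function.Injective c
  inj1 : Function.Injective fun y => c y + y
  injm1 : Function.Injective fun y => c y - y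
  inj2 : Function.Injective fun y => c y + 2 * y
  injm2 : Function.Injective fun y => c y - 2 * y
  harm3 : ∀ y y' : ZMod n, y.val < y'.val → c y + 3 * y = c y' + 3 * y' →
    (c y).val + 3 * (n - (y'.val - y.val)) ≤ n + 1
  harmm3 : ∀ y y' : ZMod n, y.val < y'.val → c y - 3 * y = c y' - 3 * y' →
    (c y').val + 3 * (n - (y'.val - y.val)) ≤ n + 1

theorem eq_of_cast {n : ℕ} {y y' : ℕ} (hy : y < n) (hy' : y' < n)
    (h : (y : ZMod n) = (y' : ZMod n)) : y = y' := by
  have h1 := congrArg ZMod.val h
  rwa [ZMod.val_cast_of_lt hy, ZMod.val_cast_of_lt hy'] at h1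

theorem val_lt' {n : ℕ} [NeZero n] (a : ZMod n) : a.val < n := ZMod.val_lt a

/-- No divisibility by small multiples. -/
theorem not_dvd_mul {n : ℕ} {m : ℕ} (hm : Nat.Coprime n m) {k : ℤ} (hk : 0 < k) (hkn : k < n) :
    ((m : ZMod n) * (k : ZMod n)) ≠ 0 := by
  intro h
  have h1 : (((m : ℤ) * k : ℤ) : ZMod n) = 0 := by push_cast; exact h
  rw [ZMod.intCast_zmod_eq_zero_iff_dvd] at h1
  have h2 : IsCoprime (n : ℤ) (m : ℤ) := Nat.isCoprime_iff_coprime.mpr hm
  have h3 : (n : ℤ) ∣ k := h2.dvd_of_dvd_mul_left h1
  have := Int.le_of_dvd hk h3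
  omega

/-- Main case analysis. -/
theorem no_attack {n : ℕ} [NeZero n]
    {c : ZMod n → ZMod n} (hc : Good n c) {x y x' y' : ℕ} (hx : x < n) (hy : y < n)
    (hx' : x' < n) (hy' : y' < n) (hlt : y < y') {k : ℤ} (hk : 0 < k)
    (dx : (x : ℤ) - x' = 0 ∨ |(x : ℤ) - x'| = k)
    (dy : |(y : ℤ) - y'| = k)
    (dz : ((2 * (x : ZMod n) + c (y : ZMod n)).val : ℤ) -
      ((2 * (x' : ZMod n) + c (y' : ZMod n)).val : ℤ) = 0 ∨
      |((2 * (x : ZMod n) + c (y : ZMod n)).val : ℤ) -
      ((2 * (x' : ZMod n) + c (y' : ZMod n)).val : ℤ)| = k) : False := by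
  have hyk : (y' : ℤ) = y + k := by
    rw [abs_of_neg (by omega)] at dy
    omega
  have hyz : (y' : ZMod n) = (y : ZMod n) + (k : ZMod n) := by
    have := congrArg (Int.cast : ℤ → ZMod n) hyk
    push_cast at this
    exact this
  have hne : ¬ ((y : ZMod n) = (y' : ZMod n)) := fun h => by
    have := eq_of_cast hy hy' h
    omega
  set z := (2 * (x : ZMod n) + c (y : ZMod n)).val with hz
  set z' := (2 * (x' : ZMod n) + c (y' : ZMod n)).val with hz'
  have hzc : (z : ZMod n) = 2 * (x : ZMod n) + c (y : ZMod n) := by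
    rw [hz, ZMod.natCast_zmod_val]
  have hzc' : (z' : ZMod n) = 2 * (x' : ZMod n) + c (y' : ZMod n) := by
    rw [hz', ZMod.natCast_zmod_val]
  have hyv : (y : ZMod n).val = y := ZMod.val_cast_of_lt hy
  have hyv' : (y' : ZMod n).val = y' := ZMod.val_cast_of_lt hy'
  have ek : ∀ {a b : ℕ} {t : ℤ}, (a : ℤ) - b = t → (a : ZMod n) = (b : ZMod n) + (t : ZMod n) := by
    intro a b t h
    have h' : (a : ℤ) = b + t := by omega
    have := congrArg (Int.cast : ℤ → ZMod n) h'
    push_cast at this
    exact this
  -- possible values of `dz`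
  have dz3 : (z : ℤ) - z' = 0 ∨ (z : ℤ) - z' = k ∨ (z : ℤ) - z' = -k := by
    rcases dz with h | h
    · exact Or.inl h
    · rcases abs_eq hk.le |>.mp h with h | h
      · exact Or.inr (Or.inl h)
      · exact Or.inr (Or.inr h)
  have dx3 : (x : ℤ) - x' = 0 ∨ (x : ℤ) - x' = k ∨ (x : ℤ) - x' = -k := by
    rcases dx with h | h
    · exact Or.inl h
    · rcases abs_eq hk.le |>.mp h with h | h
      · exact Or.inr (Or.inl h)
      · exact Or.inr (Or.inr h)
  rcases dx3 with ex | ex | ex
  · -- `x = x'`
    have hxz := ek ex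
    rcases dz3 with ez | ez | ez
    · have hzz := ek ez
      refine hne (hc.inj0 ?_)
      rw [hzc, hzc', hxz] at hzz
      push_cast at hzz
      linear_combination hzz
    · have hzz := ek ez
      refine hne (hc.inj1 ?_)
      simp only
      rw [hzc, hzc', hxz] at hzz
      push_cast at hzz
      rw [hyz] at hzz ⊢
      linear_combination hzz
    · have hzz := ek ez
      refine hne (hc.injm1 ?_)
      simp only
      rw [hzc, hzc', hxz] at hzz
      push_cast at hzz
      rw [hyz] at hzz ⊢
      linear_combination hzz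
  · -- `x = x' + k` : opposite direction to `y`
    have hxz := ek ex
    rcases dz3 with ez | ez | ez
    · have hzz := ek ez
      refine hne (hc.injm2 ?_)
      simp only
      rw [hzc, hzc', hxz] at hzz
      push_cast at hzz
      rw [hyz] at hzz ⊢
      linear_combination hzz
    · have hzz := ek ez
      refine hne (hc.injm1 ?_)
      simp only
      rw [hzc, hzc', hxz] at hzz
      rw [hyz] at hzz ⊢
      linear_combination hzz
    · -- the soft form `-3`
      have hzz := ek ez
      have hcol : c (y : ZMod n) - 3 * (y : ZMod n) = c (y' : ZMod n) - 3 * (y' : ZMod n) := by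
        rw [hzc, hzc', hxz] at hzz
        push_cast at hzz
        rw [hyz] at hzz ⊢
        linear_combination hzz
      have hh := hc.harmm3 _ _ (by rw [hyv, hyv']; exact hlt) hcol
      rw [hyv, hyv'] at hh
      have hlt2 : 2 * x' + (c (y' : ZMod n)).val < n := by omega
      have hzv : z' = 2 * x' + (c (y' : ZMod n)).val := by
        rw [hz']
        have : (2 * (x' : ZMod n) + c (y' : ZMod n)) =
            ((2 * x' + (c (y' : ZMod n)).val : ℕ) : ZMod n) := by
          push_cast
          rw [ZMod.natCast_zmod_val]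
        rw [this, ZMod.val_cast_of_lt hlt2]
      omega
  · -- `x = x' - k` : same direction as `y`
    have hxz := ek ex
    rcases dz3 with ez | ez | ez
    · have hzz := ek ez
      refine hne (hc.inj2 ?_)
      simp only
      rw [hzc, hzc', hxz] at hzz
      push_cast at hzz
      rw [hyz] at hzz ⊢
      linear_combination hzz
    · -- the soft form `+3`
      have hzz := ek ez
      have hcol : c (y : ZMod n) + 3 * (y : ZMod n) = c (y' : ZMod n) + 3 * (y' : ZMod n) := by
        rw [hzc, hzc', hxz] at hzz
        push_cast at hzz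
        rw [hyz] at hzz ⊢
        linear_combination hzz
      have hh := hc.harm3 _ _ (by rw [hyv, hyv']; exact hlt) hcol
      rw [hyv, hyv'] at hh
      have hlt2 : 2 * x + (c (y : ZMod n)).val < n := by omega
      have hzv : z = 2 * x + (c (y : ZMod n)).val := by
        rw [hz]
        have : (2 * (x : ZMod n) + c (y : ZMod n)) =
            ((2 * x + (c (y : ZMod n)).val : ℕ) : ZMod n) := by
          push_cast
          rw [ZMod.natCast_zmod_val]
        rw [this, ZMod.val_cast_of_lt hlt2]
      omega
    · have hzz := ek ez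
      refine hne (hc.inj1 ?_)
      simp only
      rw [hzc, hzc', hxz] at hzz
      push_cast at hzz
      rw [hyz] at hzz ⊢
      linear_combination hzz

/-- A good function gives a solution of the `(n,3)` queens problem. -/
theorem solution {n : ℕ} (hn : 0 < n) (h2 : Nat.Coprime n 2) (h3 : Nat.Coprime n 3)
    {c : ZMod n → ZMod n} (hc : Good n c) :
    ∃ S : Finset (Fin 3 → ℤ),
      S.card = n ^ 2 ∧
      (∀ p ∈ S, ∀ i : Fin 3, 0 ≤ p i ∧ p i < (n : ℤ)) ∧
      (∀ p ∈ S, ∀ q ∈ S, p ≠ q →
          ¬ ∃ k : ℤ, 0 < k ∧ ∀ i : Fin 3, p i - q i = 0 ∨ |p i - q i| = k) := by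
  have : NeZero n := ⟨hn.ne'⟩
  refine ⟨(Finset.range n ×ˢ Finset.range n).image fun p => cell c p.1 p.2, ?_, ?_, ?_⟩
  · rw [Finset.card_image_of_injOn, Finset.card_product, Finset.card_range, sq]
    rintro ⟨x, y⟩ _ ⟨x', y'⟩ _ h
    have h0 := congrFun h 0
    have h1 := congrFun h 1
    simp only [cell, Matrix.cons_val_zero, Matrix.cons_val_one] at h0 h1
    norm_cast at h0 h1
    rw [h0, h1]
  · intro p hp i
    obtain ⟨⟨x, y⟩, hxy, rfl⟩ := Finset.mem_image.mp hp
    obtain ⟨hx, hy⟩ := Finset.mem_product.mp hxy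
    simp only [Finset.mem_range] at hx hy
    fin_cases i
    · change (0 : ℤ) ≤ (x : ℤ) ∧ (x : ℤ) < (n : ℤ)
      exact ⟨by positivity, by exact_mod_cast hx⟩
    · change (0 : ℤ) ≤ (y : ℤ) ∧ (y : ℤ) < (n : ℤ)
      exact ⟨by positivity, by exact_mod_cast hy⟩
    · change (0 : ℤ) ≤ ((2 * (x : ZMod n) + c (y : ZMod n)).val : ℤ) ∧
        ((2 * (x : ZMod n) + c (y : ZMod n)).val : ℤ) < (n : ℤ)
      exact ⟨by positivity, by exact_mod_cast ZMod.val_lt _⟩
  · intro p hp q hq hpq hk
    obtain ⟨k, hk, hd⟩ := hk
    obtain ⟨⟨x, y⟩, hxy, rfl⟩ := Finset.mem_image.mp hp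
    obtain ⟨⟨x', y'⟩, hxy', rfl⟩ := Finset.mem_image.mp hq
    obtain ⟨hx, hy⟩ := Finset.mem_product.mp hxy
    obtain ⟨hx', hy'⟩ := Finset.mem_product.mp hxy'
    simp only [Finset.mem_range] at hx hy hx' hy'
    have d0 := hd 0
    have d1 := hd 1
    have d2 := hd 2
    simp only [cell, Matrix.cons_val_zero, Matrix.cons_val_one, Matrix.cons_val] at d0 d1 d2
    rcases lt_trichotomy y y' with hlt | heq | hgt
    · have dy : |(y : ℤ) - y'| = k := by
        rcases d1 with h | h
        · omega
        · exact h
      exact no_attack hc hx hy hx' hy' hlt hk d0 dy d2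
    · subst heq
      -- same `y`
      have key : ∀ {t s : ℤ}, (x : ℤ) - x' = t →
          ((2 * (x : ZMod n) + c (y : ZMod n)).val : ℤ) -
            ((2 * (x' : ZMod n) + c (y : ZMod n)).val : ℤ) = s →
          (s : ZMod n) = 2 * (t : ZMod n) := by
        intro t s ht hs
        rw [← ht, ← hs]
        push_cast
        rw [ZMod.natCast_zmod_val, ZMod.natCast_zmod_val]
        ring
      have hkn : (x : ℤ) - x' = 0 ∨ k < n := by
        rcases d0 with h | h
        · exact Or.inl h
        · right
          rw [← h, abs_lt]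
          omega
      have b1 : (2 * (x : ZMod n) + c (y : ZMod n)).val < n := ZMod.val_lt _
      have b2 : (2 * (x' : ZMod n) + c (y : ZMod n)).val < n := ZMod.val_lt _
      have n1 := @not_dvd_mul n 1 (Nat.coprime_one_right n) k hk
      have n2 := @not_dvd_mul n 2 h2 k hk
      have n3 := @not_dvd_mul n 3 h3 k hk
      rcases d0 with e0 | e0
      · -- same `x`, so same cell
        have hxx : x = x' := by omega
        subst hxx
        exact hpq rfl
      · have hkn' : k < n := by
          rcases hkn with h | h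
          · rw [h] at e0
            simp at e0
            omega
          · exact h
        have n1 := n1 hkn'
        have n2 := n2 hkn'
        have n3 := n3 hkn'
        rcases abs_eq hk.le |>.mp e0 with ex | ex <;> rcases d2 with e2 | e2
        · have := key ex e2
          push_cast at this n1 n2 n3
          exact n2 (by linear_combination -this)
        · rcases abs_eq hk.le |>.mp e2 with ez | ez
          · have := key ex ez
            push_cast at this n1 n2 n3
            exact n1 (by linear_combination -this)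
          · have := key ex ez
            push_cast at this n1 n2 n3
            exact n3 (by linear_combination -this)
        · have := key ex e2
          push_cast at this n1 n2 n3
          exact n2 (by linear_combination this)
        · rcases abs_eq hk.le |>.mp e2 with ez | ez
          · have := key ex ez
            push_cast at this n1 n2 n3
            exact n3 (by linear_combination this)
          · have := key ex ez
            push_cast at this n1 n2 n3
            exact n1 (by linear_combination this)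
    · have dy : |(y' : ℤ) - y| = k := by
        rcases d1 with h | h
        · omega
        · rw [abs_sub_comm]; exact h
      refine no_attack hc hx' hy' hx hy hgt hk ?_ dy ?_
      · rcases d0 with h | h
        · left; omega
        · right; rw [abs_sub_comm]; exact h
      · rcases d2 with h | h
        · left; omega
        · right; rw [abs_sub_comm]; exact h

/-- The frozen statement S08514 follows from one good function with `gcd n 210 ≠ 1`. -/
theorem final {n : ℕ} (hn : 0 < n) (h2 : Nat.Coprime n 2) (h3 : Nat.Coprime n 3)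
    (h210 : Nat.gcd n 210 ≠ 1) {c : ZMod n → ZMod n} (hc : Good n c) :
    ¬ (∀ n : ℕ, 0 < n →
      (∃ S : Finset (Fin 3 → ℤ),
          S.card = n ^ 2 ∧
          (∀ p ∈ S, ∀ i : Fin 3, 0 ≤ p i ∧ p i < (n : ℤ)) ∧
          (∀ p ∈ S, ∀ q ∈ S, p ≠ q →
              ¬ ∃ k : ℤ, 0 < k ∧ ∀ i : Fin 3, p i - q i = 0 ∨ |p i - q i| = k)) →
      Nat.gcd n 210 = 1) :=
  fun h => h210 (h n hn (solution hn h2 h3 hc))

end Pool.Agent.Q3
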