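import Pool.Agent.Lib_helper79.Q3.Wanted
import Pool.Agent.Lib_helper9.Q3.Geom

/-!
# Block GEO
-/

namespace Pool.Agent.Q3

theorem geo_pr : Geo := by
  intro n hn0 h6 c hinj hm3
  have h2 : Nat.Coprime n 2 := Nat.Coprime.coprime_dvd_right (by norm_num) h6
  have h3 : Nat.Coprime n 3 := Nat.Coprime.coprime_dvd_right (by norm_num) h6
  have g0 := hinj 0 (by norm_num) (by norm_num)
  have g1 := hinj 1 (by norm_num) (by norm_num)
  have gm1 := hinj (-1) (by norm_num) (by norm_num)
  have g2 := hinj 2 (by norm_num) (by norm_num)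
  have gm2 := hinj (-2) (by norm_num) (by norm_num)
  have g3 := hinj 3 (by norm_num) (by norm_num)
  push_cast at g0 g1 gm1 g2 gm2 g3
  refine solution (Nat.pos_of_ne_zero hn0.out) h2 h3 (c := c) ⟨?_, ?_, ?_, ?_, ?_, ?_, hm3⟩
  · intro a b h
    exact g0 (by simpa using h)
  · intro a b h
    exact g1 (by simpa using h)
  · intro a b h
    refine gm1 ?_
    simp only at h ⊢
    linear_combination h
  · intro a b h
    exact g2 h
  · intro a b h
    refine gm2 ?_
    simp only at h ⊢
    linear_combination h
  · intro y y' hlt h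
    have := g3 h
    rw [this] at hlt
    exact absurd hlt (lt_irrefl _)

end Pool.Agent.Q3
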